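import Pool.Agent.Run7.h833.NfF

/-!
# Elliptic curves: the exact horizon of the heat flow

`E : y² = x³ + a x + b` runs through the elliptic curves over `ℚ` (`Curve`), with conductor `N`, completed
L-function `Λ` and `Λ_τ = e^{τ D²} Λ` (`D = d/ds`) its heat flow; the zeros of `Λ_τ` move to the line
`Re s = 1` as `τ` grows, and the Riemann hypothesis for `E` says that they are there for all `τ ≥ 0`.
Let `C(y) = N (1 + |y|)²` be the analytic conductor at the height `y` and let `P` be any set of curves (for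
example all curves, or one).

`RealZeros P κ`: for every `ε > 0`, all zeros `s` of `Λ_τ` with `τ log C(Im s) ≥ κ + ε`, `τ` small and
`C(Im s)` large are on the line `Re s = 1`, uniformly in `E ∈ P`.  `ZeroFree P κ`: `L(E, s)` has no zeros
in `Re s ≥ 1 + κ + ε` for `C(Im s)` large.  `Size P r a`: `L(E, 1 + r + i t) ≪ C(t)^(a + ε)`.

Theorem.  (1) For every `κ > 0`, `RealZeros P κ` holds if and only if `ZeroFree P κ` and
`Size P r (max(κ - r, 0)² / (4 κ))` for all `0 ≤ r ≤ 1/2`.  (2) If the Lindelöf hypothesis `Size P 0 0`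
holds, `RealZeros P κ` and `ZeroFree P κ` are equivalent for every `κ ≥ 0`.  (3) `ZeroFree P v` and
`Size P 0 a`, `0 < v ≤ 1/2`, `0 ≤ a ≤ v/2`, imply `RealZeros P (v² / (v - a))`.

Proof: the general theorem `Run7.h833.FamL.horizon` for standard L-functions, modules
`Pool.Agent.Run7.h833.HfX`, `HfY`, `HfZ`, `HfF` over `Pool.Agent.W169.HF` of the starting files.
-/

set_option autoImplicit false

open Complex UpperHalfPlane MatrixGroups CongruenceSubgroup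

namespace Pool.Agent.Results.MP_553913_nt.ExactHorizon

/-- The coefficient `a_p` of `E : y² = x³ + a x + b` at a prime `p ∤ 2 (4a³ + 27b²)`: `p` minus the
number of pairs `(x, y)` modulo `p` with `y² ≡ x³ + a x + b (mod p)`. -/
noncomputable def ap (a b : ℤ) (p : ℕ) : ℤ :=
  (p : ℤ) - (((Finset.range p ×ˢ Finset.range p).filter
    (fun xy : ℕ × ℕ => (p : ℤ) ∣ (xy.2 : ℤ) ^ 2 -
      ((xy.1 : ℤ) ^ 3 + a * (xy.1 : ℤ) + b))).card : ℤ)

/-- The `n`-th Fourier coefficient of `f`. -/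
noncomputable def coef {N : ℕ} (f : CuspForm (Gamma0 N : Subgroup (GL (Fin 2) ℝ)) 2) (n : ℕ) : ℂ :=
  (qExpansion 1 f).coeff n

/-- `f ∈ S_2(Γ₀(N))` is the newform of the elliptic curve `E : y² = x³ + a x + b` of conductor `N` and
root number `w`: the Fourier coefficients `c(n)` of `f` are real with `c(1) = 1`, they satisfy the
Hecke relations `c(mn) = c(m) c(n)` for coprime `m`, `n` and `c(p^(j+2)) = c(p) c(p^(j+1)) - p c(p^j)`
(without the last term if `p ∣ N`), `f(-1/(Nτ)) = -w N τ² f(τ)`, `c(p) = a_p(E)` for all primes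
`p ∤ 2 (4a³ + 27b²)`, `|c(p)| ≤ 2 √p` for all `p ∤ N` (Hasse) and `c(p) = 0, 1, -1` for `p ∣ N`. -/
structure IsFormOf (a b : ℤ) (N : ℕ) (f : CuspForm (Gamma0 N : Subgroup (GL (Fin 2) ℝ)) 2) (w : ℝ) :
    Prop where
  one : coef f 1 = 1
  real : ∀ n, (coef f n).im = 0
  mul : ∀ m n : ℕ, Nat.Coprime m n → coef f (m * n) = coef f m * coef f n
  pow : ∀ p j : ℕ, p.Prime → coef f (p ^ (j + 2)) = coef f p * coef f (p ^ (j + 1)) -
      (if p ∣ N then 0 else (p : ℂ) * coef f (p ^ j))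
  sign : w = 1 ∨ w = -1
  fricke : ∀ τ τ' : ℍ, (τ' : ℂ) * ((N : ℂ) * (τ : ℂ)) = -1 →
    f τ' = -(w : ℂ) * (N : ℂ) * (τ : ℂ) ^ 2 * f τ
  points : ∀ p : ℕ, p.Prime → ¬ (p : ℤ) ∣ 2 * (4 * a ^ 3 + 27 * b ^ 2) → coef f p = (ap a b p : ℂ)
  good : ∀ p : ℕ, p.Prime → ¬ p ∣ N → ‖coef f p‖ ≤ 2 * Real.sqrt p
  bad : ∀ p : ℕ, p.Prime → p ∣ N → coef f p = 0 ∨ coef f p = 1 ∨ coef f p = -1

/-- `Λ` is the completed L-function of `f`: it is entire and
`Λ(s) = N^(s/2) (2π)^(-s) Γ(s) ∑ c(n) n^(-s)` for `Re s > 2`. -/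
def IsCompleted {N : ℕ} (f : CuspForm (Gamma0 N : Subgroup (GL (Fin 2) ℝ)) 2) (Λ : ℂ → ℂ) : Prop :=
  Differentiable ℂ Λ ∧ ∀ s : ℂ, 2 < s.re →
    Λ s = ((Real.sqrt N / (2 * Real.pi) : ℝ) : ℂ) ^ s * Complex.Gamma s *
      ∑' n : ℕ, coef f (n + 1) * ((n + 1 : ℕ) : ℂ) ^ (-s)

/-- The heat flow `Λ_t = e^{t D²} Λ` (`D = d/ds`) as a Gaussian average:
`Λ_t(s) = π^(-1/2) ∫ exp (-v²) Λ(s + 2 √t v) dv`. -/
noncomputable def heat (t : ℝ) (Λ : ℂ → ℂ) (s : ℂ) : ℂ :=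
  ((1 / Real.sqrt Real.pi : ℝ) : ℂ) *
    ∫ v : ℝ, ((Real.exp (-v ^ 2) : ℝ) : ℂ) * Λ (s + ((2 * Real.sqrt t * v : ℝ) : ℂ))

/-- An elliptic curve `E : y² = x³ + a x + b` over `ℚ` with its conductor `N`, its newform `f`, its root
number `w` and its completed L-function `Λ(E, s)` (these exist and are unique by the modularity
theorem). -/
structure Curve where
  /-- the coefficient `a` -/
  a : ℤ
  /-- the coefficient `b` -/
  b : ℤ
  /-- the conductor -/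
  N : ℕ
  /-- the newform -/
  f : CuspForm (Gamma0 N : Subgroup (GL (Fin 2) ℝ)) 2
  /-- the root number -/
  w : ℝ
  /-- the completed L-function -/
  Λ : ℂ → ℂ
  disc : 4 * a ^ 3 + 27 * b ^ 2 ≠ 0
  N_ne : N ≠ 0
  form : IsFormOf a b N f w
  completed : IsCompleted f Λ

namespace Curve

/-- The L-function `L(E, s) = Λ(E, s) / (N^(s/2) (2π)^(-s) Γ(s))`. -/
noncomputable def L (E : Curve) (s : ℂ) : ℂ :=
  E.Λ s / (((Real.sqrt E.N / (2 * Real.pi) : ℝ) : ℂ) ^ s * Complex.Gamma s)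

/-- The analytic conductor `N (1 + |y|)²` at the height `y`. -/
noncomputable def C (E : Curve) (y : ℝ) : ℝ := E.N * (1 + |y|) ^ 2

end Curve

/-- For every `ε > 0` there are `τ₁ > 0` and `C₀` such that for all `E ∈ P`, all `0 < τ ≤ τ₁` and all
zeros `s` of the heat flow `Λ_τ` with `C(Im s) ≥ C₀` and `τ log C(Im s) ≥ κ + ε`, the zero `s` is on the
line `Re s = 1`. -/
def RealZeros (P : Curve → Prop) (κ : ℝ) : Prop :=
  ∀ ε : ℝ, 0 < ε → ∃ τ₁ C₀ : ℝ, 0 < τ₁ ∧ ∀ E : Curve, P E → ∀ (τ : ℝ) (s : ℂ), 0 < τ → τ ≤ τ₁ →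
    C₀ ≤ E.C s.im → κ + ε ≤ τ * Real.log (E.C s.im) → heat τ E.Λ s = 0 → s.re = 1

/-- For every `ε > 0` there is `C₀` such that for all `E ∈ P`, `Λ(E, s)` has no zero `s` with
`Re s ≥ 1 + κ + ε` and `C(Im s) ≥ C₀`. -/
def ZeroFree (P : Curve → Prop) (κ : ℝ) : Prop :=
  ∀ ε : ℝ, 0 < ε → ∃ C₀ : ℝ, ∀ E : Curve, P E → ∀ s : ℂ, C₀ ≤ E.C s.im →
    1 + κ + ε ≤ s.re → E.Λ s ≠ 0

/-- `L(E, 1 + r + i t) ≪ C(t)^(a + ε)` for every `ε > 0`, uniformly in `E ∈ P` and `t`. -/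
def Size (P : Curve → Prop) (r a : ℝ) : Prop :=
  ∀ ε : ℝ, 0 < ε → ∃ B : ℝ, ∀ E : Curve, P E → ∀ t : ℝ,
    ‖E.L (1 + (r : ℂ) + (t : ℂ) * Complex.I)‖ ≤ B * E.C t ^ (a + ε)

lemma toForm (E : Curve) : Pool.Agent.W169.HF.IsForm E.N E.f E.w :=
  { one := E.form.one
    real := E.form.real
    mul := E.form.mul
    pow := E.form.pow
    sign := E.form.sign
    fricke := E.form.fricke
    good := E.form.good
    bad := fun p hp hpN => by
      have h1 : (1 : ℝ) ≤ Real.sqrt p := by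
        rw [Real.one_le_sqrt]
        exact_mod_cast hp.one_le
      have h2 : ‖coef E.f p‖ ≤ 1 := by
        rcases E.form.bad p hp hpN with h | h | h <;> simp [h]
      exact h2.trans h1 }

/-- the family -/
noncomputable def fam (P : Curve → Prop) : Run7.h833.FamL {E : Curve // P E} 2 :=
  Run7.h833.nfFam (fun E => E.1.N) (fun E => E.1.N_ne) (fun E => E.1.f) (fun E => E.1.w) (fun E => E.1.Λ)
    (fun E => toForm E.1) (fun E => E.1.completed)

lemma real_iff (P : Curve → Prop) (κ : ℝ) : RealZeros P κ ↔ (fam P).Real_ κ := by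
  constructor
  · intro h ε hε
    obtain ⟨τ1, C0, hτ1, H⟩ := h ε hε
    exact ⟨τ1, C0, hτ1, fun i t s a1 a2 a3 a4 a5 => H i.1 i.2 t s a1 a2 a3 a4 a5⟩
  · intro h ε hε
    obtain ⟨τ1, C0, hτ1, H⟩ := h ε hε
    exact ⟨τ1, C0, hτ1, fun E hE t s a1 a2 a3 a4 a5 => H ⟨E, hE⟩ t s a1 a2 a3 a4 a5⟩

lemma free_iff (P : Curve → Prop) (κ : ℝ) : ZeroFree P κ ↔ (fam P).Free κ := by
  constructor
  · intro h ε hε
    obtain ⟨C0, H⟩ := h ε hε
    exact ⟨C0, fun i s a1 a2 => H i.1 i.2 s a1 a2⟩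
  · intro h ε hε
    obtain ⟨C0, H⟩ := h ε hε
    exact ⟨C0, fun E hE s a1 a2 => H ⟨E, hE⟩ s a1 a2⟩

lemma size_iff (P : Curve → Prop) (r a : ℝ) : Size P r a ↔ (fam P).Sz r a := by
  have hc : (((1 : ℝ)) : ℂ) = 1 := by norm_num
  constructor
  · intro h ε hε
    obtain ⟨B, H⟩ := h ε hε
    refine ⟨B, fun i t => ?_⟩
    have h1 := H i.1 i.2 t
    rw [← hc] at h1
    exact h1
  · intro h ε hε
    obtain ⟨B, H⟩ := h ε hε
    refine ⟨B, fun E hE t => ?_⟩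
    have h1 := H ⟨E, hE⟩ t
    rw [← hc]
    exact h1

/-- **Main theorem.** Let `P` be a set of elliptic curves over `ℚ`.  (1) For every `κ > 0`,
`RealZeros P κ` is equivalent to `ZeroFree P κ` together with `Size P r (max(κ - r, 0)² / (4 κ))` for all
`0 ≤ r ≤ 1/2`; (2) if `Size P 0 0` (the Lindelöf hypothesis) holds, then `RealZeros P κ` is equivalent to
`ZeroFree P κ` for every `κ ≥ 0`; (3) `ZeroFree P v` and `Size P 0 a`, `0 ≤ a ≤ v / 2`, `0 < v ≤ 1/2`, imply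
`RealZeros P (v² / (v - a))`. -/
theorem result (P : Curve → Prop) :
    (∀ κ : ℝ, 0 < κ → (RealZeros P κ ↔ ZeroFree P κ ∧
      ∀ r : ℝ, 0 ≤ r → r ≤ 1 / 2 → Size P r (max (κ - r) 0 ^ 2 / (4 * κ)))) ∧
    (Size P 0 0 → ∀ κ : ℝ, 0 ≤ κ → (RealZeros P κ ↔ ZeroFree P κ)) ∧
    ∀ v a : ℝ, 0 < v → v ≤ 1 / 2 → 0 ≤ a → a ≤ v / 2 → ZeroFree P v → Size P 0 a →
      RealZeros P (v ^ 2 / (v - a)) := by
  simp only [real_iff, free_iff, size_iff]
  obtain ⟨h1, h2, h3, -⟩ := (fam P).horizon (by norm_num)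
  exact ⟨h1, h2, h3⟩

end Pool.Agent.Results.MP_553913_nt.ExactHorizon
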