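import Pool.Agent.Run7.h833.HwC

/-!
# Hasse-Weil L-functions: the exact horizon of the heat flow

Let `X` be projective and smooth over `ℤ[1/N]` and let `Λ = Λ_A(i; X, s)` be the completed L-function in
degree `i`.  Suppose that parts (a), (b) of the problem hold for `(X, i)` and that `Λ` is entire (so `i` is
odd, or there are no poles at `s = i/2`, `i/2 + 1`).  Let `Λ_τ = e^{τ D²} Λ` (`D = d/ds`) be the heat flow
of `Λ`; its zeros move to the line `Re s = (i+1)/2` as `τ` grows, and part (d) for `(X, i)` says that they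
are there for all `τ ≥ 0`.  Let `𝔠(y) = A ∏ (1 + |μ + i y|)` be the analytic conductor at height `y` and
let `P` be any set of such L-functions of the same degree `m = b_i`.

`RealZeros P κ`: for every `ε > 0`, all zeros `s` of `Λ_τ` with `τ log 𝔠(Im s) ≥ κ + ε`, `τ` small and
`𝔠(Im s)` large are on the line `Re s = (i+1)/2`, uniformly in `P`.  `ZeroFree P κ`: no zeros of `Λ` in
`Re s ≥ (i+1)/2 + κ + ε` for `𝔠(Im s)` large.  `Size P r a`: `L((i+1)/2 + r + i t) ≪ 𝔠(t)^(a + ε)`.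

Theorem.  (1) For every `κ > 0`, `RealZeros P κ` holds if and only if `ZeroFree P κ` and
`Size P r (max(κ - r, 0)² / (4 κ))` for all `0 ≤ r ≤ 1/2`.  (2) If the Lindelöf hypothesis `Size P 0 0`
holds, `RealZeros P κ` and `ZeroFree P κ` are equivalent for every `κ ≥ 0`.  (3) `ZeroFree P v` and
`Size P 0 a`, `0 < v ≤ 1/2`, `0 ≤ a ≤ v/2`, imply `RealZeros P (v² / (v - a))`.  (4) `RealZeros P 1`.

`X` enters through the data `Cohomology i`, which by Deligne's theorem have the required properties.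
Proof: the general theorem `Run7.h833.FamL.horizon` for standard L-functions, modules
`Pool.Agent.Run7.h833.HfX`, `HfY`, `HfZ`, `HfF`, `HwD`, `HwC` over `Pool.Agent.W169.HF` of the starting
files.
-/

set_option autoImplicit false

namespace Pool.Agent.Results.MP_7193be_nt.ExactHorizon

open Complex Polynomial
open scoped ComplexConjugate

/-- The Betti number `b_i = 2 ∑_{p < q, p + q = i} h^{p,q} + h^{m,+} + h^{m,-}` (the last two for
`i = 2m`), where `hodge p = h^{p, i-p}`. -/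
def bettiOf (i : ℕ) (hodge : ℕ → ℕ) (plus minus : ℕ) : ℕ :=
  2 * ∑ p ∈ Finset.range ((i + 1) / 2), hodge p + (if Even i then plus + minus else 0)

/-- What enters of the cohomology `H^i` of a projective smooth scheme `X` over `ℤ[1/N]` in the Hasse-Weil
L-function `L(i; X, s)` and its gamma factor. -/
structure Cohomology (i : ℕ) where
  /-- the integer `N`: good reduction for `p ∤ N` -/
  N : ℕ
  /-- the Hodge numbers `hodge p = h^{p, i - p}` for `2 p < i` -/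
  hodge : ℕ → ℕ
  /-- `h^{m,+}` for `i = 2m` -/
  plus : ℕ
  /-- `h^{m,-}` for `i = 2m` -/
  minus : ℕ
  /-- `P_i(X(p), T)` for `p ∤ N`, and `det(1 - Frob_p T | H^i(X)^{I_p})` for `p ∣ N` -/
  P : ℕ → ℤ[X]
  N_pos : 0 < N
  betti_pos : 0 < bettiOf i hodge plus minus
  const : ∀ p : ℕ, p.Prime → (P p).coeff 0 = 1
  degree_good : ∀ p : ℕ, p.Prime → ¬ p ∣ N → (P p).natDegree = bettiOf i hodge plus minus
  degree_bad : ∀ p : ℕ, p.Prime → p ∣ N → (P p).natDegree ≤ bettiOf i hodge plus minus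
  roots_good : ∀ p : ℕ, p.Prime → ¬ p ∣ N → ∀ z : ℂ, aeval z (P p) = 0 →
    ‖z‖ = (p : ℝ) ^ (-((i : ℝ) / 2))
  roots_bad : ∀ p : ℕ, p.Prime → p ∣ N → ∀ z : ℂ, aeval z (P p) = 0 →
    (p : ℝ) ^ (-(((i : ℝ) + 1) / 2)) ≤ ‖z‖

namespace Cohomology

variable {i : ℕ} (V : Cohomology i)

/-- the Betti number `b_i` -/
def betti : ℕ := bettiOf i V.hodge V.plus V.minus

/-- the L-function (with the factors at the primes dividing `N`) in the half-plane of convergence -/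
noncomputable def L (s : ℂ) : ℂ :=
  ∏' p : Nat.Primes, (aeval (((p : ℕ) : ℂ) ^ (-s)) (V.P p))⁻¹

/-- the gamma factor `Γ_i(s) = ∏_{p<q} Γ_ℂ(s-p)^{h^{p,q}} Γ_ℝ(s-m)^{h^{m,+}} Γ_ℝ(s-m+1)^{h^{m,-}}`, the last
two factors for `i = 2m` only -/
noncomputable def gammaFactor (s : ℂ) : ℂ :=
  (∏ p ∈ Finset.range ((i + 1) / 2), Gammaℂ (s - p) ^ V.hodge p) *
    (if Even i then Gammaℝ (s - (i : ℂ) / 2) ^ V.plus * Gammaℝ (s - (i : ℂ) / 2 + 1) ^ V.minus
      else 1)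

/-- the analytic conductor at height `y`, for the conductor `A` -/
noncomputable def analyticConductor (A y : ℝ) : ℝ :=
  A * ((∏ p ∈ Finset.range ((i + 1) / 2), ((1 + ‖(y : ℂ) * I + ((i : ℂ) / 2 - p)‖) *
    (1 + ‖(y : ℂ) * I + ((i : ℂ) / 2 - p + 1)‖)) ^ V.hodge p) *
    (if Even i then (1 + ‖(y : ℂ) * I + 0‖) ^ V.plus * (1 + ‖(y : ℂ) * I + 1‖) ^ V.minus else 1))

/-- `Λ` is the completed L-function `Λ_A(i; X, s)`, and it has the properties (a), (b): it is entire, of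
finite order, and `Λ(s) = ± Λ(i + 1 - s)`. -/
structure Continued (A : ℝ) (Λ : ℂ → ℂ) : Prop where
  one_le : 1 ≤ A
  entire : Differentiable ℂ Λ
  order : ∃ c ρ : ℝ, ∀ s : ℂ, ‖Λ s‖ ≤ Real.exp (c * (1 + ‖s‖) ^ ρ)
  fe : ∃ ε : ℝ, (ε = 1 ∨ ε = -1) ∧ ∀ s : ℂ, Λ s = ε * Λ (i + 1 - s)
  eq : ∃ σ : ℝ, ∀ s : ℂ, σ ≤ s.re → Λ s = (A : ℂ) ^ (s / 2) * V.gammaFactor s * V.L s

end Cohomology

/-- A Hasse-Weil L-function of degree `m` with continuation and functional equation: the degree `i`, the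
data `V` of the cohomology, with Betti number `m`, the conductor `A` and the completed L-function `Λ`. -/
structure HasseWeil (m : ℕ) where
  /-- the degree of the cohomology -/
  i : ℕ
  /-- the data of `H^i(X)` -/
  V : Cohomology i
  /-- the conductor -/
  A : ℝ
  /-- the completed L-function -/
  Λ : ℂ → ℂ
  degree : V.betti = m
  continued : V.Continued A Λ

namespace HasseWeil

variable {m : ℕ} (X : HasseWeil m)

/-- the L-function `Λ(s) / (A^(s/2) Γ_i(s))` -/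
noncomputable def L (s : ℂ) : ℂ := X.Λ s / ((X.A : ℂ) ^ (s / 2) * X.V.gammaFactor s)

/-- the analytic conductor at the height `y` -/
noncomputable def C (y : ℝ) : ℝ := X.V.analyticConductor X.A y

/-- the abscissa of the critical line -/
noncomputable def centre : ℝ := ((X.i : ℝ) + 1) / 2

end HasseWeil

/-- The heat flow `Λ_t = e^{t D²} Λ` (`D = d/ds`) as a Gaussian average:
`Λ_t(s) = π^(-1/2) ∫ exp (-v²) Λ(s + 2 √t v) dv`. -/
noncomputable def heat (t : ℝ) (Λ : ℂ → ℂ) (s : ℂ) : ℂ :=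
  ((1 / Real.sqrt Real.pi : ℝ) : ℂ) *
    ∫ v : ℝ, ((Real.exp (-v ^ 2) : ℝ) : ℂ) * Λ (s + ((2 * Real.sqrt t * v : ℝ) : ℂ))

variable {m : ℕ}

/-- For every `ε > 0` there are `τ₁ > 0` and `C₀` such that for all `X ∈ P`, all `0 < τ ≤ τ₁` and all
zeros `s` of the heat flow `Λ_τ` with `𝔠(Im s) ≥ C₀` and `τ log 𝔠(Im s) ≥ κ + ε`, the zero `s` is on the
line `Re s = (i+1)/2`. -/
def RealZeros (P : HasseWeil m → Prop) (κ : ℝ) : Prop :=
  ∀ ε : ℝ, 0 < ε → ∃ τ₁ C₀ : ℝ, 0 < τ₁ ∧ ∀ X : HasseWeil m, P X → ∀ (τ : ℝ) (s : ℂ), 0 < τ → τ ≤ τ₁ →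
    C₀ ≤ X.C s.im → κ + ε ≤ τ * Real.log (X.C s.im) → heat τ X.Λ s = 0 → s.re = X.centre

/-- For every `ε > 0` there is `C₀` such that for all `X ∈ P`, `Λ` has no zero `s` with
`Re s ≥ (i+1)/2 + κ + ε` and `𝔠(Im s) ≥ C₀`. -/
def ZeroFree (P : HasseWeil m → Prop) (κ : ℝ) : Prop :=
  ∀ ε : ℝ, 0 < ε → ∃ C₀ : ℝ, ∀ X : HasseWeil m, P X → ∀ s : ℂ, C₀ ≤ X.C s.im →
    X.centre + κ + ε ≤ s.re → X.Λ s ≠ 0

/-- `L((i+1)/2 + r + i t) ≪ 𝔠(t)^(a + ε)` for every `ε > 0`, uniformly in `X ∈ P` and `t`. -/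
def Size (P : HasseWeil m → Prop) (r a : ℝ) : Prop :=
  ∀ ε : ℝ, 0 < ε → ∃ B : ℝ, ∀ X : HasseWeil m, P X → ∀ t : ℝ,
    ‖X.L ((X.centre : ℂ) + (r : ℂ) + (t : ℂ) * I)‖ ≤ B * X.C t ^ (a + ε)

lemma data (X : HasseWeil m) : ∃ (a' : Fin m → ℂ) (α : Fin m → ℕ → ℂ) (ε κ : ℝ), 0 < κ ∧
      κ = X.A ^ (-((X.i : ℝ) / 4)) ∧
      Pool.Agent.W169.HF.Std X.A (fun j => -a' j) α (ε : ℂ)
        (fun s => (X.A : ℂ) ^ (-(s / 2)) * ((κ : ℂ) * X.Λ (s + (((X.i : ℝ) / 2 : ℝ) : ℂ)))) ∧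
      (∀ z : ℂ, (∏ j, Gammaℝ (z + a' j)) = X.V.gammaFactor (z + (X.i : ℂ) / 2)) ∧
      ∀ y : ℝ, Pool.Agent.W169.HF.cnd X.A (fun j => -a' j) y = X.C y := by
  have h := X.continued
  refine Run7.h833.Coh.coh_std (i := X.i) (h := X.V.hodge) (a := X.V.plus) (b := X.V.minus)
      (P := X.V.P) (M := X.V.N) X.V.N_pos.ne' X.degree X.V.betti_pos X.V.const (fun p hp => ?_)
      (fun p hp z hz => ?_) X.V.roots_good h.one_le h.entire h.order h.fe h.eq
  · by_cases hpN : p ∣ X.V.N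
    · exact X.V.degree_bad p hp hpN
    · exact (X.V.degree_good p hp hpN).le
  · by_cases hpN : p ∣ X.V.N
    · exact X.V.roots_bad p hp hpN z hz
    · rw [X.V.roots_good p hp hpN z hz]
      exact Real.rpow_le_rpow_of_exponent_le (by exact_mod_cast hp.one_le) (by linarith)

/-- the family -/
lemma fam (P : HasseWeil m → Prop) : ∃ F : Run7.h833.FamL {X : HasseWeil m // P X} m,
    (∀ X, F.c X = X.1.centre) ∧ (∀ X, F.Λ X = X.1.Λ) ∧ (∀ X, F.L X = X.1.L) ∧ (∀ X, F.C X = X.1.C) := by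
  choose a α ε κ hκ hκA hstd hgam hC using data (m := m)
  have hc : ∀ X : HasseWeil m, X.centre - 1 / 2 = (X.i : ℝ) / 2 := fun X => by
    unfold HasseWeil.centre
    ring
  have hcc : ∀ X : HasseWeil m, (((X.i : ℝ) / 2 : ℝ) : ℂ) = (X.i : ℂ) / 2 := fun X => by
    push_cast
    rfl
  refine ⟨{ N := fun X => X.1.A
            μ := fun X j => -a X.1 j
            α := fun X => α X.1
            e := fun X => (ε X.1 : ℂ)
            Λ' := fun X s => (X.1.A : ℂ) ^ (-(s / 2)) * ((κ X.1 : ℂ) * X.1.Λ (s + (((X.1.i : ℝ) / 2 : ℝ) : ℂ)))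
            std := fun X => hstd X.1
            c := fun X => X.1.centre
            k := fun X => (κ X.1 : ℂ)
            hk := fun X => by exact_mod_cast (hκ X.1).ne'
            Λ := fun X => X.1.Λ
            hX := fun X s => ?_
            L := fun X => X.1.L
            hL := fun X s _ => ?_
            C := fun X => X.1.C
            A := 1
            hA := le_rfl
            C0 := fun X y => ?_
            C1 := fun X y => (hC X.1 y).ge
            C2 := fun X y => by rw [one_mul]; exact (hC X.1 y).le },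
    fun _ => rfl, fun _ => rfl, fun _ => rfl, fun _ => rfl⟩
  · have hA : (0 : ℝ) < X.1.A := by linarith [X.1.continued.one_le]
    have hAc : (X.1.A : ℂ) ≠ 0 := by exact_mod_cast hA.ne'
    show (X.1.A : ℂ) ^ (s / 2) * ((X.1.A : ℂ) ^ (-(s / 2)) * _) = _
    rw [← mul_assoc, ← Complex.cpow_add _ _ hAc, add_neg_cancel, Complex.cpow_zero, one_mul, hc]
  · have hA : (0 : ℝ) < X.1.A := by linarith [X.1.continued.one_le]
    have hAc : (X.1.A : ℂ) ≠ 0 := by exact_mod_cast hA.ne'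
    rw [hc]
    unfold Pool.Agent.W169.HF.LL HasseWeil.L
    simp only [sub_neg_eq_add]
    rw [Finset.prod_inv_distrib, hgam, hcc]
    congr 1
    have e1 : (κ X.1 : ℂ) = (X.1.A : ℂ) ^ (-((X.1.i : ℂ) / 4)) := by
      rw [hκA, Complex.ofReal_cpow hA.le]
      congr 1
      push_cast
      rfl
    have e2 : ((X.1.A : ℂ) ^ ((s + (X.1.i : ℂ) / 2) / 2))⁻¹ =
        (X.1.A : ℂ) ^ (-(s / 2)) * (X.1.A : ℂ) ^ (-((X.1.i : ℂ) / 4)) := by
      rw [← Complex.cpow_neg, ← Complex.cpow_add _ _ hAc]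
      congr 1
      ring
    have e3 : X.1.Λ (s + (X.1.i : ℂ) / 2) / ((X.1.A : ℂ) ^ ((s + (X.1.i : ℂ) / 2) / 2) *
        X.1.V.gammaFactor (s + (X.1.i : ℂ) / 2)) = X.1.Λ (s + (X.1.i : ℂ) / 2) *
        (((X.1.A : ℂ) ^ ((s + (X.1.i : ℂ) / 2) / 2))⁻¹ * (X.1.V.gammaFactor (s + (X.1.i : ℂ) / 2))⁻¹) := by
      rw [div_eq_mul_inv, mul_inv]
    rw [e3, e2, e1]
    ring
  · have h1 : 1 ≤ Pool.Agent.W169.HF.cnd X.1.A (fun j => -a X.1 j) y :=
      Pool.Agent.W169.HF.cnd_pos X.1.continued.one_le _ y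
    rw [hC] at h1
    linarith

/-- **Main theorem.** Let `m ≥ 1` and let `P` be a set of Hasse-Weil L-functions of degree `m`.  (1) For
every `κ > 0`, `RealZeros P κ` is equivalent to `ZeroFree P κ` together with
`Size P r (max(κ - r, 0)² / (4 κ))` for all `0 ≤ r ≤ 1/2`; (2) if `Size P 0 0` (the Lindelöf hypothesis)
holds, then `RealZeros P κ` is equivalent to `ZeroFree P κ` for every `κ ≥ 0`; (3) `ZeroFree P v` and
`Size P 0 a`, `0 ≤ a ≤ v / 2`, `0 < v ≤ 1/2`, imply `RealZeros P (v² / (v - a))`; (4) `RealZeros P 1`. -/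
theorem result (hm : 1 ≤ m) (P : HasseWeil m → Prop) :
    (∀ κ : ℝ, 0 < κ → (RealZeros P κ ↔ ZeroFree P κ ∧
      ∀ r : ℝ, 0 ≤ r → r ≤ 1 / 2 → Size P r (max (κ - r) 0 ^ 2 / (4 * κ)))) ∧
    (Size P 0 0 → ∀ κ : ℝ, 0 ≤ κ → (RealZeros P κ ↔ ZeroFree P κ)) ∧
    (∀ v a : ℝ, 0 < v → v ≤ 1 / 2 → 0 ≤ a → a ≤ v / 2 → ZeroFree P v → Size P 0 a →
      RealZeros P (v ^ 2 / (v - a))) ∧
    RealZeros P 1 := by
  obtain ⟨F, hc, hΛ, hL, hC⟩ := fam P
  have h := F.horizon hm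
  have e1 : ∀ κ, F.Real_ κ ↔ RealZeros P κ := fun κ => by
    constructor
    · intro h ε hε
      obtain ⟨τ1, C0, hτ1, H⟩ := h ε hε
      refine ⟨τ1, C0, hτ1, fun X hX t s a1 a2 a3 a4 a5 => ?_⟩
      have := H ⟨X, hX⟩ t s a1 a2 (by rw [hC]; exact a3) (by rw [hC]; exact a4) (by rw [hΛ]; exact a5)
      rwa [hc] at this
    · intro h ε hε
      obtain ⟨τ1, C0, hτ1, H⟩ := h ε hε
      refine ⟨τ1, C0, hτ1, fun X t s a1 a2 a3 a4 a5 => ?_⟩
      rw [hC] at a3 a4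
      rw [hΛ] at a5
      rw [hc]
      exact H X.1 X.2 t s a1 a2 a3 a4 a5
  have e2 : ∀ κ, F.Free κ ↔ ZeroFree P κ := fun κ => by
    constructor
    · intro h ε hε
      obtain ⟨C0, H⟩ := h ε hε
      refine ⟨C0, fun X hX s a1 a2 => ?_⟩
      have := H ⟨X, hX⟩ s (by rw [hC]; exact a1) (by rw [hc]; exact a2)
      rwa [hΛ] at this
    · intro h ε hε
      obtain ⟨C0, H⟩ := h ε hε
      refine ⟨C0, fun X s a1 a2 => ?_⟩
      rw [hC] at a1
      rw [hc] at a2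
      rw [hΛ]
      exact H X.1 X.2 s a1 a2
  have e3 : ∀ r a, F.Sz r a ↔ Size P r a := fun r a => by
    constructor
    · intro h ε hε
      obtain ⟨B, H⟩ := h ε hε
      refine ⟨B, fun X hX t => ?_⟩
      have := H ⟨X, hX⟩ t
      rwa [hL, hc, hC] at this
    · intro h ε hε
      obtain ⟨B, H⟩ := h ε hε
      refine ⟨B, fun X t => ?_⟩
      rw [hL, hc, hC]
      exact H X.1 X.2 t
  simp only [e1, e2, e3] at h
  exact h

end Pool.Agent.Results.MP_7193be_nt.ExactHorizon
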