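import Pool.Agent.Run7.h278.LI.Coh
import Pool.Agent.Results.MP_7193be_nt.UniformDerivatives

set_option autoImplicit false

/-!
# MP_7193be_nt: Li's criterion on thin sets of indices for Hasse-Weil L-functions and all half-planes

Let `Λ = Λ_A(i; X, s)` be the completed L-function of the `i`-th cohomology of a projective smooth scheme `X` over `ℤ[1/N]` (for even `i`
multiplied by `((s - i/2) (s - i/2 - 1))^r` if it has poles), with the continuation and the functional equation (parts (a), (b) of the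
problem). For `σ ≥ (i+1)/2` and a real base point `a > σ` with `Λ(a) ≠ 0`, for example any `a > i/2 + 7/4`, let `λ_n = λ_n(σ, a)` be `n`
times the coefficient of `z ^ n` of `log (Λ(σ + (a - σ) (1 + z) / (1 - z)) / Λ(a))` (its real part). For every set `S` of Bohr recurrence,
`Λ` has no zeros with `Re s > σ` if and only if `λ_n ≥ 0` for all `n ∈ S`; for `σ = (i+1)/2` this is part (d) of the problem. For the
powers `X = E^g` of `E : y² = x³ - x` and all odd `i < 2g` nothing is assumed.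
-/

namespace Pool.Agent.Results.MP_7193be_nt.LiRecurrence

open Complex
open Pool.Agent.Results.MP_7193be_nt.UniformDerivatives (Cohomology IsHasseWeil IsCompleted)

/-- `Λ` has no zeros with `Re s > σ` -/
def ZeroFree (Λ : ℂ → ℂ) (σ : ℝ) : Prop := ∀ s : ℂ, Λ s = 0 → s.re ≤ σ

/-- The Li coefficient `λ_n(σ, a)` of `Λ` with respect to the half-plane `Re s > σ` and the base point `a > σ`: the real part of `n` times
the coefficient of `z ^ n` in the Taylor series of `log (Λ(σ + (a - σ) (1 + z) / (1 - z)) / Λ(a))` at `z = 0` -/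
noncomputable def li (Λ : ℂ → ℂ) (σ a : ℝ) (n : ℕ) : ℝ :=
  n * (iteratedDeriv n (fun z : ℂ => Complex.log (Λ (σ + (a - σ) * ((1 + z) / (1 - z))) / Λ a)) 0).re / n.factorial

/-- `S` is a set of Bohr recurrence: for all real `θ_1, …, θ_k` and `ε > 0` there is a positive `n` in `S` such that all the `n θ_i` are
at distance `< ε` from the integers -/
def BohrRec (S : Set ℕ) : Prop :=
  ∀ (k : ℕ) (θ : Fin k → ℝ) (ε : ℝ), 0 < ε → ∃ n ∈ S, 0 < n ∧ ∀ i, ∃ m : ℤ, |(n : ℝ) * θ i - m| < ε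

/-- The statements on the Li coefficients of `Λ` with the critical line `Re s = x`:

* `line`: `Λ` has no zeros with `Re s > x` iff all zeros are on the line
* `crit`, `crit_exp`: the criterion on every set of Bohr recurrence, with signs and with subexponential lower bounds
* `primes_sub`, `primes_add`, `powers`, `differences`, `intervals`, `dichotomy`: examples (shifted primes, multiples of `k`-th powers,
  the differences of an infinite set, arbitrarily long intervals) and the dichotomy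
* `nbhd`: if there is a zero with `Re s > σ`, the coefficients are `≤ -e^(c n)` for all large `n` in a Bohr neighbourhood of zero
* `gaps`, `window`: without real zeros to the right of `a`: positive values in every long interval, unconditionally, and large values of
  both signs in every long interval if there is a zero with `Re s > σ` -/
structure LiCriterion (x : ℝ) (Λ : ℂ → ℂ) : Prop where
  line : ZeroFree Λ x ↔ ∀ s : ℂ, Λ s = 0 → s.re = x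
  crit : ∀ σ a : ℝ, x ≤ σ → σ < a → Λ a ≠ 0 → ∀ S : Set ℕ, BohrRec S →
    (ZeroFree Λ σ ↔ ∀ n ∈ S, 0 ≤ li Λ σ a n)
  crit_exp : ∀ σ a : ℝ, x ≤ σ → σ < a → Λ a ≠ 0 → ∀ S : Set ℕ, BohrRec S →
    (ZeroFree Λ σ ↔ ∀ ε : ℝ, 0 < ε → ∃ C : ℝ, ∀ n ∈ S, -(C * Real.exp (ε * n)) ≤ li Λ σ a n)
  primes_sub : ∀ σ a : ℝ, x ≤ σ → σ < a → Λ a ≠ 0 →
    (ZeroFree Λ σ ↔ ∀ p : ℕ, p.Prime → 0 ≤ li Λ σ a (p - 1))
  primes_add : ∀ σ a : ℝ, x ≤ σ → σ < a → Λ a ≠ 0 →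
    (ZeroFree Λ σ ↔ ∀ p : ℕ, p.Prime → 0 ≤ li Λ σ a (p + 1))
  powers : ∀ σ a : ℝ, x ≤ σ → σ < a → Λ a ≠ 0 → ∀ m k : ℕ, 0 < m → 0 < k →
    (ZeroFree Λ σ ↔ ∀ y : ℕ, 0 < y → 0 ≤ li Λ σ a (m * y ^ k))
  differences : ∀ σ a : ℝ, x ≤ σ → σ < a → Λ a ≠ 0 → ∀ T : Set ℕ, T.Infinite →
    (ZeroFree Λ σ ↔ ∀ s ∈ T, ∀ t ∈ T, t < s → 0 ≤ li Λ σ a (s - t))
  intervals : ∀ σ a : ℝ, x ≤ σ → σ < a → Λ a ≠ 0 →
    (ZeroFree Λ σ ↔ ∀ L : ℕ, ∃ b : ℕ, ∀ i < L, 0 ≤ li Λ σ a (b + i))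
  dichotomy : ∀ σ a : ℝ, x ≤ σ → σ < a → Λ a ≠ 0 → (ZeroFree Λ σ ↔ BohrRec {n | 0 ≤ li Λ σ a n})
  nbhd : ∀ σ a : ℝ, x ≤ σ → σ < a → Λ a ≠ 0 → ¬ZeroFree Λ σ →
    ∃ c : ℝ, 0 < c ∧ ∃ (k : ℕ) (θ : Fin k → ℝ) (δ : ℝ), 0 < δ ∧ ∃ N : ℕ, ∀ n : ℕ, N ≤ n →
      (∀ i, ∃ m : ℤ, |(n : ℝ) * θ i - m| < δ) → li Λ σ a n ≤ -Real.exp (c * n)
  gaps : ∀ σ a : ℝ, x ≤ σ → σ < a → (∀ t : ℝ, a ≤ t → Λ t ≠ 0) →
    ∃ L : ℕ, ∀ b : ℕ, ∃ n, b ≤ n ∧ n < b + L ∧ 0 < li Λ σ a n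
  window : ∀ σ a : ℝ, x ≤ σ → σ < a → (∀ t : ℝ, a ≤ t → Λ t ≠ 0) → ¬ZeroFree Λ σ →
    ∃ c : ℝ, 0 < c ∧ ∃ L N : ℕ, ∀ b : ℕ, N ≤ b →
      (∃ n, b ≤ n ∧ n < b + L ∧ Real.exp (c * n) ≤ li Λ σ a n) ∧
      (∃ n, b ≤ n ∧ n < b + L ∧ li Λ σ a n ≤ -Real.exp (c * n))

theorem liCriterion_of {x : ℝ} {Λ : ℂ → ℂ} (hline : ZeroFree Λ x ↔ ∀ s : ℂ, Λ s = 0 → s.re = x)
    (h : ∀ σ a : ℝ, x ≤ σ → σ < a → Λ a ≠ 0 →
      Run7.h278.LI.LiFacts (li Λ σ a) (ZeroFree Λ σ) (∀ t : ℝ, a ≤ t → Λ t ≠ 0)) : LiCriterion x Λ where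
  line := hline
  crit σ a h1 h2 h3 _ hS := (h σ a h1 h2 h3).crit hS
  crit_exp σ a h1 h2 h3 _ hS := (h σ a h1 h2 h3).crit_eps hS
  primes_sub σ a h1 h2 h3 := (h σ a h1 h2 h3).examples.1
  primes_add σ a h1 h2 h3 := (h σ a h1 h2 h3).examples.2.1
  powers σ a h1 h2 h3 := (h σ a h1 h2 h3).examples.2.2.1
  differences σ a h1 h2 h3 := (h σ a h1 h2 h3).examples.2.2.2.1
  intervals σ a h1 h2 h3 := (h σ a h1 h2 h3).examples.2.2.2.2.1
  dichotomy σ a h1 h2 h3 := (h σ a h1 h2 h3).examples.2.2.2.2.2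
  nbhd σ a h1 h2 h3 h4 := (h σ a h1 h2 h3).nbhd h4
  gaps σ a h1 h2 h3 := (h σ a h1 h2 (h3 a le_rfl)).gaps h3
  window σ a h1 h2 h3 h4 := (h σ a h1 h2 (h3 a le_rfl)).window h3 h4

/-- **The theorem.**

* (I) for the L-function of every `X` in every degree `i` with the continuation and the functional equation
* (II) for `X = E^g`, `E : y² = x³ - x`, `g` and `i` arbitrary, `i < 2g` odd, unconditionally -/
theorem result :
    (∀ (i : ℕ) (V : Cohomology i) (A : ℝ) (r : ℕ) (Λ : ℂ → ℂ), V.Continued A r Λ →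
      (∀ s : ℂ, (i : ℝ) / 2 + 7 / 4 < s.re → Λ s ≠ 0) ∧ LiCriterion (((i : ℝ) + 1) / 2) Λ) ∧
    (∀ g i : ℕ, Odd i → i < 2 * g →
      ∃ L Λ : ℂ → ℂ, IsHasseWeil g i L ∧ IsCompleted g i L Λ ∧
        (∀ s : ℂ, (i : ℝ) / 2 + 1 < s.re → Λ s ≠ 0) ∧ LiCriterion (((i : ℝ) + 1) / 2) Λ) := by
  refine ⟨fun i V A r Λ h => ?_, fun g i hi hg => ?_⟩
  · have hPd : ∀ p : ℕ, p.Prime → (V.P p).natDegree ≤ V.betti := fun p hp => by
      by_cases hpN : p ∣ V.N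
      · exact V.degree_bad p hp hpN
      · exact (V.degree_good p hp hpN).le
    have hPr : ∀ p : ℕ, p.Prime → ∀ z : ℂ, Polynomial.aeval z (V.P p) = 0 →
        (p : ℝ) ^ (-(((i : ℝ) + 1) / 2)) ≤ ‖z‖ := fun p hp z hz => by
      by_cases hpN : p ∣ V.N
      · exact V.roots_bad p hp hpN z hz
      · rw [V.roots_good p hp hpN z hz]
        exact Real.rpow_le_rpow_of_exponent_le (by exact_mod_cast hp.one_le) (by linarith)
    obtain ⟨l, α, κ, hκ, hW⟩ := Run7.h278.LI.coh_hw (i := i) (h := V.hodge) (a := V.plus) (b := V.minus)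
      (P := V.P) V.betti_pos V.const hPd hPr h.one_le h.r_le h.entire h.order h.fe h.eq
    have hκc : (κ : ℂ) ≠ 0 := by exact_mod_cast hκ.ne'
    refine ⟨fun s hs h0 => ?_, liCriterion_of ?_ fun σ a hσ ha hne => ?_⟩
    · refine Run7.h278.LI.hw_ne hW (s := s - (((i : ℝ) / 2 : ℝ) : ℂ)) ?_ ?_
      · rw [sub_re, ofReal_re]
        linarith
      · rw [sub_add_cancel, h0, mul_zero]
    · refine Run7.h278.LI.zf_line fun s hs => ?_
      obtain ⟨ε, hε, hfe⟩ := h.fe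
      have e : 2 * ((((i : ℝ) + 1) / 2 : ℝ) : ℂ) - s = i + 1 - s := by
        push_cast
        ring
      have h1 := hfe s
      rw [hs] at h1
      rw [e]
      rcases hε with rfl | rfl
      · simpa using h1.symm
      · simpa using h1.symm
    · obtain ⟨w, hA⟩ := Run7.h278.LI.adm_hw hW
      refine Run7.h278.LI.liFacts_shift hκc (fun z => rfl) (hA.facts (by linarith) (by linarith) ?_)
      rw [show (((a - (i : ℝ) / 2 : ℝ) : ℂ) + (((i : ℝ) / 2 : ℝ) : ℂ)) = (a : ℂ) by push_cast; ring]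
      exact mul_ne_zero hκc hne
  · obtain ⟨m, rfl⟩ := hi
    obtain ⟨C, hC, H1, -⟩ := Pool.Agent.TH839.UH.finH
    obtain ⟨Λ, h1, h2, h3, ⟨r, -, h4⟩, -⟩ := Pool.Agent.TH839.UH.pow_cm H1 g m (by omega)
    obtain ⟨X, w, G, hX, hne, hXΛ⟩ := Run7.h278.LI.pow_data g m (by omega) h1 h2
    refine ⟨fun s => Pool.Agent.W355.HW.LL0 g m (s - ((2 * m + 1 : ℕ) : ℂ) / 2), Λ,
      ⟨(Pool.Agent.W355.HW.LL0_diff g m).comp (differentiable_id.sub_const _),
        fun α β hαβ s hs => Pool.Agent.W355.HW.LL0_prod g m α β hαβ s hs⟩, ⟨h1, h2⟩, fun s hs h0 => ?_,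
      liCriterion_of ?_ fun σ a hσ ha hn => ?_⟩
    · refine hne (s - ((((2 * m + 1 : ℕ) : ℝ) / 2 : ℝ) : ℂ)) ?_ ?_
      · rw [sub_re, ofReal_re]
        linarith
      · rw [hXΛ, sub_add_cancel, h0, mul_zero]
    · refine Run7.h278.LI.zf_line fun s hs => ?_
      have e : 2 * (((((2 * m + 1 : ℕ) : ℝ) + 1) / 2 : ℝ) : ℂ) - s = ((2 * m + 1 : ℕ) : ℂ) + 1 - s := by
        push_cast
        ring
      rw [e, h4, hs, mul_zero]
    · refine Run7.h278.LI.liFacts_shift one_ne_zero hXΛ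
        (Run7.h278.LI.goodA_facts hX (by linarith) (by linarith) ?_)
      rw [hXΛ, show (((a - ((2 * m + 1 : ℕ) : ℝ) / 2 : ℝ) : ℂ) + ((((2 * m + 1 : ℕ) : ℝ) / 2 : ℝ) : ℂ)) =
        (a : ℂ) by push_cast; ring, one_mul]
      exact hn

end Pool.Agent.Results.MP_7193be_nt.LiRecurrence
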