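import Pool.Agent.Run7.h278.WL.ZZ

/-!
# Simplicity of the zeros of Hardy's function and the mean square of the Li coefficients

Let `λ_n` be the Li coefficients, `λ_n = n [zⁿ] log ξ(1 / (1 - z))`, and let
`c_n = λ_{n+1} - 2 λ_n + λ_{n-1}` be their second differences (`λ_0 = 0`, `λ_{-1} = λ_1`). Put
`D = 8 λ_1 - 2 λ_2 = 2 (c_0 - c_1)`, an explicit number (in terms of `ζ(2)`, `γ` and the first Stieltjes
constant); `D` is the sum of `(ρ (1 - ρ))⁻²` over the nontrivial zeros, WITH multiplicity.

We prove without any hypothesis: the mean value of `c_n²`, `n = 1, 2, 3, ...`, exists in `[D, ∞]`; it is finite if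
and only if the Riemann hypothesis is true, and it is equal to the lower bound `D` if and only if the Riemann
hypothesis is true and all zeros of Hardy's function `Z` are simple. So on RH the question whether all zeros of `Z`
are simple is the question whether the mean square of the second differences of the Li coefficients is
`8 λ_1 - 2 λ_2`.

The same is true of the mean of `c_{b_1}², c_{b_2}², ...` for EVERY ergodic sequence `b_1, b_2, ...` of positive
integers (a sequence such that the mean of `z^(b_n)` is `0` for all `z ≠ 1` with `|z| = 1`; it can be very sparse),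
with the same mean value. On RH the mean value is the sum of `m_ρ² |ρ|⁻⁴` over the DISTINCT zeros, and finitely many
Li coefficients bound the multiplicities: for all `N ≥ 1` and for every zero `t` of `Z` of multiplicity `m`

`2 m (m - 1) / (1/4 + t²)² ≤ N⁻² ∑_{j, k < N} c_{|j - k|}² - D`,

and the right side tends to `0` if and only if all zeros of `Z` are simple (it tends to the mean value minus `D`).

Proof. `c_n = ∑_ρ z_ρⁿ / (ρ (1 - ρ))`, `z_ρ = 1 - 1/ρ`, the sum over the zeros with multiplicity converges absolutely;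
this is derived from the Hadamard product of `ξ` (starting modules `Pool.Agent.H24R2.JP`). On RH this is the Fourier
transform of a positive discrete measure of finite mass on the circle, and the mean square is given by the lemma of
Wiener. If RH fails then finitely many zeros with the same `|z_ρ| > 1` dominate, their contribution is an almost
periodic function times `|z_ρ|ⁿ` with a positive mean square along `b_n`.
-/

set_option autoImplicit false

open Complex Filter Topology

namespace Pool.Agent.Results.MP_6bc78b_nt.MeanSquareSimple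

/-- the phase `exp (i ϑ(t))`, with `ϑ(t) = arg Γ(1/4 + i t / 2) - (t / 2) log π` -/
noncomputable def phase (t : ℝ) : ℂ :=
  Gamma (1 / 4 + I * t / 2) / ‖Gamma (1 / 4 + I * t / 2)‖ * cexp (-(I * (t / 2) * Real.log Real.pi))

/-- Hardy's function `Z(t) = exp (i ϑ(t)) ζ(1/2 + i t)` -/
noncomputable def Z (t : ℝ) : ℂ := phase t * riemannZeta (1 / 2 + I * t)

/-- the multiplicity of the zero `1/2 + i t` of zeta, that is, of the real zero `t` of `Z` -/
noncomputable def mult (t : ℝ) : ℕ := analyticOrderNatAt riemannZeta (1 / 2 + I * t)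

/-- `ξ(s) = s (s - 1) Λ(s) / 2` with `Λ(s) = π^(-s/2) Γ(s/2) ζ(s)`, as an entire function -/
noncomputable def xi (s : ℂ) : ℂ := (s * (s - 1) * completedRiemannZeta₀ s + 1) / 2

/-- Li's coefficients `λ_n = n · [zⁿ] log ξ(1 / (1 - z))` -/
noncomputable def li (n : ℕ) : ℝ :=
  n * (iteratedDeriv n (fun z : ℂ => Complex.log (xi (1 / (1 - z)))) 0).re / n.factorial

/-- their second differences `c_n = λ_{n+1} - 2 λ_n + λ_{n-1}`, with `λ_{-1} = λ_1` and `λ_0 = 0` -/
noncomputable def c : ℕ → ℝ
  | 0 => 2 * li 1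
  | n + 1 => li (n + 2) - 2 * li (n + 1) + li n

/-- the number `D = 8 λ_1 - 2 λ_2 = 2 (c_0 - c_1)` -/
noncomputable def D : ℝ := 8 * li 1 - 2 * li 2

/-- ergodic sequences of positive integers: the mean value of `z^(b_n)` is `0` for `|z| = 1`, `z ≠ 1` -/
def Ergodic (b : ℕ → ℕ) : Prop := (∀ n, 1 ≤ b n) ∧ ∀ z : ℂ, ‖z‖ = 1 → z ≠ 1 →
  Tendsto (fun N : ℕ => (∑ n ∈ Finset.range N, z ^ b n) / (N : ℂ)) atTop (𝓝 0)

/-- the mean of `c_{b_0}², ..., c_{b_{N-1}}²` -/
noncomputable def mean (b : ℕ → ℕ) (N : ℕ) : ℝ := (∑ n ∈ Finset.range N, c (b n) ^ 2) / (N : ℝ)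

/-- `N⁻² ∑_{j, k < N} c_{|j - k|}²`, a number computed from `λ_1, ..., λ_N` -/
noncomputable def Φ (N : ℕ) : ℝ :=
  (∑ j ∈ Finset.range N, ∑ k ∈ Finset.range N, c ((j : ℤ) - k).natAbs ^ 2) / (N : ℝ) ^ 2

/-- twice the sum of `m² (1/4 + t²)⁻²` over the positive zeros `t` of `Z`, each taken once; `m` is the multiplicity -/
noncomputable def S : ℝ := ∑' t : {t : ℝ // 0 < t ∧ Z t = 0}, 2 * ((mult t : ℝ) / (1 / 4 + (t : ℝ) ^ 2)) ^ 2

open Run7.h278 Run7.h278.WL in
/-- **Main theorem.** -/
theorem result :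
    (∃ L : EReal, (D : EReal) ≤ L ∧
      (∀ b : ℕ → ℕ, Ergodic b → Tendsto (fun N : ℕ => ((mean b N : ℝ) : EReal)) atTop (𝓝 L)) ∧
      (L < ⊤ ↔ RiemannHypothesis) ∧
      (L = (D : EReal) ↔ RiemannHypothesis ∧ ∀ t : ℝ, Z t = 0 → deriv Z t ≠ 0) ∧
      (RiemannHypothesis → L = (S : EReal))) ∧
    Ergodic (fun n => n + 1) ∧
    (RiemannHypothesis →
      (Summable fun t : {t : ℝ // 0 < t ∧ Z t = 0} => 2 * ((mult t : ℝ) / (1 / 4 + (t : ℝ) ^ 2)) ^ 2) ∧
      Tendsto Φ atTop (𝓝 S) ∧
      ∀ N : ℕ, 1 ≤ N → S ≤ Φ N ∧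
        ∀ t : ℝ, 0 < t → Z t = 0 → 2 * ((mult t : ℝ) * (mult t - 1)) / (1 / 4 + t ^ 2) ^ 2 ≤ Φ N - D) := by
  have hc : ∀ n, c n = cc n := by
    intro n
    rcases n with _ | n <;> rfl
  have hS : RiemannHypothesis → S = LL := fun h => (LL_T h).symm
  have hErg : ∀ b, Ergodic b → Erg (fun n => b n - 1) := by
    intro b hb z hz hz1
    have hz0 : z ≠ 0 := fun h => by rw [h, norm_zero] at hz; exact zero_ne_one hz
    have h1 := (hb.2 z hz hz1).const_mul z⁻¹
    rw [mul_zero] at h1
    refine h1.congr fun N => ?_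
    rw [← mul_div_assoc, Finset.mul_sum]
    congr 1
    refine Finset.sum_congr rfl fun n _ => ?_
    obtain ⟨k, hk⟩ : ∃ k, b n = k + 1 := ⟨b n - 1, by have := hb.1 n; omega⟩
    show z⁻¹ * z ^ b n = z ^ (b n - 1)
    rw [hk, pow_succ, Nat.add_sub_cancel]
    field_simp
  have hmean : ∀ b, Ergodic b → ∀ N, mean b N = (∑ n ∈ Finset.range N, dd (b n - 1) ^ 2) / (N : ℝ) := by
    intro b hb N
    unfold mean
    congr 1
    refine Finset.sum_congr rfl fun n _ => ?_
    obtain ⟨k, hk⟩ : ∃ k, b n = k + 1 := ⟨b n - 1, by have := hb.1 n; omega⟩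
    rw [hk, hc, Nat.add_sub_cancel]
    rfl
  have hE1 : Ergodic (fun n => n + 1) := by
    refine ⟨fun n => Nat.succ_le_succ (Nat.zero_le n), fun z hz hz1 => ?_⟩
    have h1 := Erg.id.zpow hz hz1 1 1
    refine h1.congr fun N => ?_
    simp only [one_mul]
  have hQ : RiemannHypothesis → ((∀ t : ℝ, Z t = 0 → deriv Z t ≠ 0) ↔ ∀ v : ZI, mu LI.Fs v = 1) :=
    fun h => simple_all_iff h
  have hΦ : ∀ N, Φ N = (∑ j ∈ Finset.range N, ∑ k ∈ Finset.range N, cc (nd j k) ^ 2) / (N : ℝ) ^ 2 := by
    intro N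
    unfold Φ
    congr 1
    refine Finset.sum_congr rfl fun j _ => Finset.sum_congr rfl fun k _ => ?_
    rw [hc]
    congr 2
    unfold nd
    omega
  refine ⟨?_, hE1, ?_⟩
  · by_cases hRH : RiemannHypothesis
    · refine ⟨(LL : EReal), ?_, ?_, ?_, ?_, ?_⟩
      · exact EReal.coe_le_coe_iff.2 (D_le_LL hRH)
      · intro b hb
        have h1 := wien hRH (hErg b hb)
        have h2 : Tendsto (fun N : ℕ => mean b N) atTop (𝓝 LL) := h1.congr fun N => (hmean b hb N).symm
        exact (continuous_coe_real_ereal.tendsto _).comp h2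
      · exact ⟨fun _ => hRH, fun _ => EReal.coe_lt_top _⟩
      · rw [EReal.coe_eq_coe_iff, hQ hRH]
        constructor
        · intro h
          exact ⟨hRH, (LL_eq_iff hRH).1 h⟩
        · rintro ⟨-, h⟩
          exact (LL_eq_iff hRH).2 h
      · intro _
        rw [hS hRH]
    · refine ⟨⊤, le_top, ?_, ?_, ?_, ?_⟩
      · intro b hb
        obtain ⟨v0, hv0, h1⟩ := exists_off hRH
        have h2 := grow hv0 h1 (hErg b hb)
        have h3 : Tendsto (fun N : ℕ => mean b N) atTop atTop := h2.congr fun N => (hmean b hb N).symm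
        rw [EReal.tendsto_nhds_top_iff_real]
        intro x
        filter_upwards [h3.eventually_gt_atTop x] with N hN
        exact EReal.coe_lt_coe_iff.2 hN
      · exact ⟨fun h => absurd h (lt_irrefl _), fun h => absurd h hRH⟩
      · exact ⟨fun h => absurd h.symm (EReal.coe_ne_top _), fun h => absurd h.1 hRH⟩
      · exact fun h => absurd h hRH
  · intro hRH
    refine ⟨?_, ?_, ?_⟩
    · obtain ⟨e, he⟩ := equivT hRH
      obtain ⟨Y, hY⟩ := exists_Zs
      have h1 := (e.summable_iff (f := fun v : ZI => 2 * ((mu LI.Fs v : ℝ) * ‖1 / (v : ℂ)‖) ^ 2)).2 (sq_summable hY)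
      refine h1.congr fun t => ?_
      simp only [Function.comp_apply]
      rw [he, norm_vt]
      have h2 : mult (t : ℝ) = mu LI.Fs (vt t) := mult_eq t.2.1.ne'
      rw [h2]
      ring
    · rw [hS hRH]
      exact (fejer_tendsto hRH).congr fun N => (hΦ N).symm
    · intro N hN
      have hN' : (0 : ℝ) < N := by exact_mod_cast hN
      have h1 : S ≤ Φ N := by
        rw [hS hRH, hΦ, le_div_iff₀ (by positivity), mul_comm]
        exact fejer hRH N
      refine ⟨h1, fun t ht hz => ?_⟩
      have h2 := one_zero hRH ht hz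
      rw [← hS hRH] at h2
      have h3 : 2 * ((mult t : ℝ) * (mult t - 1)) / (1 / 4 + t ^ 2) ^ 2 ≤ S - D := h2
      linarith

end Pool.Agent.Results.MP_6bc78b_nt.MeanSquareSimple
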